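import Mathlib

/-! # A power series transcendental over the polynomials, over any field -/

set_option autoImplicit false

open Polynomial

namespace Pool.Agent.H993R3.DC

variable (k : Type) [Field k]

/-- partial sums of the series `∑ X ^ ((j + 1)!)` -/
noncomputable def S (N : ℕ) : k[X] := ∑ j ∈ Finset.range (N + 1), X ^ (j + 1).factorial

open Classical in
/-- the series `∑ X ^ ((j + 1)!)` -/
noncomputable def sig : PowerSeries k :=
  PowerSeries.mk fun n => if ∃ j : ℕ, (j + 1).factorial = n then 1 else 0

theorem fact_inj {i j : ℕ} (h : (i + 1).factorial = (j + 1).factorial) : i = j := by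
  rcases lt_trichotomy i j with h1 | h1 | h1
  · have := (Nat.factorial_lt (Nat.succ_pos i)).mpr (Nat.succ_lt_succ h1)
    simp only [Nat.succ_eq_add_one] at this
    omega
  · exact h1
  · have := (Nat.factorial_lt (Nat.succ_pos j)).mpr (Nat.succ_lt_succ h1)
    simp only [Nat.succ_eq_add_one] at this
    omega

theorem coeff_S_of_le {j N : ℕ} (h : j ≤ N) : (S k N).coeff (j + 1).factorial = 1 := by
  unfold S
  rw [Polynomial.finsetSum_coeff, Finset.sum_eq_single j]
  · simp
  · intro i _ hij
    rw [Polynomial.coeff_X_pow, if_neg]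
    intro h2
    exact hij (fact_inj h2).symm
  · intro h2
    exact absurd (Finset.mem_range.mpr (by omega)) h2

theorem coeff_S_of_lt {n N : ℕ} (h : ∀ j, j ≤ N → (j + 1).factorial ≠ n) : (S k N).coeff n = 0 := by
  unfold S
  rw [Polynomial.finsetSum_coeff]
  apply Finset.sum_eq_zero
  intro i hi
  rw [Polynomial.coeff_X_pow, if_neg]
  intro h2
  exact h i (by have := Finset.mem_range.mp hi; omega) h2.symm

theorem coeff_eq {n N : ℕ} (h : n < (N + 2).factorial) :
    PowerSeries.coeff n (sig k) = (S k N).coeff n := by
  unfold sig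
  rw [PowerSeries.coeff_mk]
  split_ifs with h1
  · obtain ⟨j, rfl⟩ := h1
    have : j ≤ N := by
      by_contra hc
      have hc' : N + 2 ≤ j + 1 := by omega
      have := Nat.factorial_le hc'
      omega
    rw [coeff_S_of_le k this]
  · rw [coeff_S_of_lt k]
    intro j _ h2
    exact h1 ⟨j, h2⟩

theorem dvd_sub (N : ℕ) : (PowerSeries.X : PowerSeries k) ^ (N + 2).factorial ∣
    sig k - Polynomial.coeToPowerSeries.ringHom (S k N) := by
  rw [PowerSeries.X_pow_dvd_iff]
  intro m hm
  rw [map_sub, coeff_eq k hm]
  simp

theorem natDegree_S (N : ℕ) : (S k N).natDegree ≤ (N + 1).factorial := by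
  unfold S
  apply Polynomial.natDegree_sum_le_of_forall_le
  intro i hi
  rw [Polynomial.natDegree_X_pow]
  apply Nat.factorial_le
  have := Finset.mem_range.mp hi
  omega

theorem natDegree_eval (p : k[X][X]) (c : ℕ) (hc : ∀ i, (p.coeff i).natDegree ≤ c) (q : k[X]) :
    (p.eval q).natDegree ≤ c + p.natDegree * q.natDegree := by
  rw [Polynomial.eval_eq_sum_range]
  apply Polynomial.natDegree_sum_le_of_forall_le
  intro i hi
  have hi' : i ≤ p.natDegree := by
    have := Finset.mem_range.mp hi
    omega
  calc (p.coeff i * q ^ i).natDegree ≤ (p.coeff i).natDegree + (q ^ i).natDegree :=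
        Polynomial.natDegree_mul_le
    _ ≤ c + i * q.natDegree := add_le_add (hc i) Polynomial.natDegree_pow_le
    _ ≤ _ := by
        have := Nat.mul_le_mul_right q.natDegree hi'
        omega

theorem exists_bound (p : k[X][X]) : ∃ c : ℕ, ∀ i, (p.coeff i).natDegree ≤ c := by
  refine ⟨∑ i ∈ p.support, (p.coeff i).natDegree, ?_⟩
  intro i
  by_cases hi : i ∈ p.support
  · exact Finset.single_le_sum (f := fun i => (p.coeff i).natDegree) (fun _ _ => Nat.zero_le _) hi
  · rw [Polynomial.notMem_support_iff.mp hi]
    simp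

theorem S_inj : Function.Injective (S k) := by
  have key : ∀ M N : ℕ, M < N → S k M ≠ S k N := by
    intro M N h heq
    have h1 := coeff_S_of_le k (le_refl N)
    rw [← heq, coeff_S_of_lt k] at h1
    · exact zero_ne_one h1
    · intro j hj h2
      have := fact_inj h2
      omega
  intro M N h
  rcases lt_trichotomy M N with h1 | h1 | h1
  · exact absurd h (key M N h1)
  · exact h1
  · exact absurd h.symm (key N M h1)

theorem root_of_large (p : k[X][X])
    (hp : Polynomial.eval₂ Polynomial.coeToPowerSeries.ringHom (sig k) p = 0) (c : ℕ)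
    (hc : ∀ i, (p.coeff i).natDegree ≤ c) (N : ℕ) (hN : c + p.natDegree ≤ N) :
    p.eval (S k N) = 0 := by
  set φ : k[X] →+* PowerSeries k := Polynomial.coeToPowerSeries.ringHom with hφ
  have h1 : sig k - φ (S k N) ∣ (p.map φ).eval (sig k) - (p.map φ).eval (φ (S k N)) :=
    Polynomial.sub_dvd_eval_sub _ _ _
  have h2 : (PowerSeries.X : PowerSeries k) ^ (N + 2).factorial ∣ φ (p.eval (S k N)) := by
    have h3 := (dvd_sub k N).trans h1
    rw [Polynomial.eval_map, Polynomial.eval_map, hp, zero_sub, dvd_neg,
      Polynomial.eval₂_at_apply] at h3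
    exact h3
  rw [PowerSeries.X_pow_dvd_iff] at h2
  have hdeg : (p.eval (S k N)).natDegree < (N + 2).factorial := by
    calc (p.eval (S k N)).natDegree ≤ c + p.natDegree * (S k N).natDegree :=
          natDegree_eval k p c hc _
      _ ≤ c + p.natDegree * (N + 1).factorial := by
          have := Nat.mul_le_mul_left p.natDegree (natDegree_S k N)
          omega
      _ < (N + 2).factorial := by
          rw [Nat.factorial_succ (N + 1)]
          have hpos : 1 ≤ (N + 1).factorial := Nat.succ_le_of_lt (Nat.factorial_pos _)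
          nlinarith
  ext m
  rw [Polynomial.coeff_zero]
  by_cases hm : m < (N + 2).factorial
  · have := h2 m hm
    rw [hφ] at this
    simpa using this
  · apply Polynomial.coeff_eq_zero_of_natDegree_lt
    omega

/-- P1 -/
theorem exists_transcendental : ∃ σ : PowerSeries k, PowerSeries.constantCoeff σ = 0 ∧
    ∀ p : k[X][X], p ≠ 0 → Polynomial.eval₂ (Polynomial.coeToPowerSeries.ringHom) σ p ≠ 0 := by
  refine ⟨sig k, ?_, ?_⟩
  · rw [← PowerSeries.coeff_zero_eq_constantCoeff_apply]
    unfold sig
    rw [PowerSeries.coeff_mk, if_neg]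
    rintro ⟨j, hj⟩
    exact Nat.factorial_ne_zero _ hj
  · intro p hp0 hp
    obtain ⟨c, hc⟩ := exists_bound k p
    apply hp0
    apply Polynomial.eq_zero_of_infinite_isRoot
    apply Set.infinite_of_injective_forall_mem (f := fun n : ℕ => S k (c + p.natDegree + n))
    · intro a b hab
      have := S_inj k hab
      omega
    · intro n
      exact root_of_large k p hp c hc _ (by omega)

end Pool.Agent.H993R3.DC
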