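import Mathlib
import Pool.Agent.H661R3.DC.Defs

/-! # Maximal Cohen–Macaulay modules over a one-dimensional local domain are the torsion-free ones -/

set_option autoImplicit false

open IsLocalRing

namespace Pool.Agent.H993R3.DC

open Pool.Agent.H661R3.DC

section
variable (R : Type) [CommRing R] [IsDomain R] [IsLocalRing R]

theorem ringKrullDim_one (t : R) (ht : t ∈ maximalIdeal R) (ht0 : t ≠ 0)
    (hprimes : ∀ p : Ideal R, p.IsPrime → p = ⊥ ∨ p = maximalIdeal R) : ringKrullDim R = 1 := by
  rw [ringKrullDim_eq_one_iff_of_isLocalRing_isDomain]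
  constructor
  · intro hF
    have h1 : IsUnit t := by
      obtain ⟨b, hb⟩ := hF.mul_inv_cancel ht0
      exact IsUnit.of_mul_eq_one b hb
    exact (mem_maximalIdeal t).mp ht h1
  · intro x hx
    rw [Ideal.radical_eq_sInf]
    refine le_sInf ?_
    rintro J ⟨hJ1, hJ2⟩
    rcases hprimes J hJ2 with h | h
    · exfalso
      apply hx
      have : x ∈ J := hJ1 (Ideal.mem_span_singleton_self x)
      rw [h] at this
      simpa using this
    · exact le_of_eq h.symm

theorem dim_max (t : R) (ht : t ∈ maximalIdeal R) (ht0 : t ≠ 0)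
    (hprimes : ∀ p : Ideal R, p.IsPrime → p = ⊥ ∨ p = maximalIdeal R) :
    ringKrullDim (Localization.AtPrime (maximalIdeal R)) = 1 := by
  rw [IsLocalization.AtPrime.ringKrullDim_eq_height (maximalIdeal R),
    maximalIdeal_height_eq_ringKrullDim, ringKrullDim_one R t ht ht0 hprimes]

theorem dim_bot : ringKrullDim (Localization.AtPrime (⊥ : Ideal R)) = 0 := by
  rw [IsLocalization.AtPrime.ringKrullDim_eq_height (⊥ : Ideal R), Ideal.height_bot]
  rfl

variable (M : Type) [AddCommGroup M] [Module R M]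

/-- P2 (a) -/
theorem isMCM_of_torsionFree [Module.Finite R M] (t : R) (ht : t ∈ maximalIdeal R) (ht0 : t ≠ 0)
    (hprimes : ∀ p : Ideal R, p.IsPrime → p = ⊥ ∨ p = maximalIdeal R)
    (htf : ∀ r : R, r ≠ 0 → ∀ m : M, r • m = 0 → m = 0) : IsMCM R M := by
  refine ⟨inferInstance, ?_⟩
  intro p hp
  rcases hprimes p hp with h | h
  · subst h
    refine ⟨[], by simp, ?_, RingTheory.Sequence.IsWeaklyRegular.nil _ _⟩
    rw [dim_bot]
    rfl
  · subst h
    refine ⟨[Localization.mk t 1], ?_, ?_, ?_⟩
    · intro r hr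
      rw [List.mem_singleton] at hr
      rw [hr, Localization.mk_eq_mk']
      exact (IsLocalization.AtPrime.mk'_mem_maximal_iff _ (maximalIdeal R) t 1).mpr ht
    · rw [dim_max R t ht ht0 hprimes]
      rfl
    · rw [RingTheory.Sequence.isWeaklyRegular_cons_iff]
      refine ⟨?_, RingTheory.Sequence.IsWeaklyRegular.nil _ _⟩
      apply IsSMulRegular.of_right_eq_zero_of_smul
      intro x hx
      induction x with | _ m s
      rw [LocalizedModule.mk_smul_mk, ← LocalizedModule.zero_mk 1, LocalizedModule.mk_eq] at hx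
      obtain ⟨u, hu⟩ := hx
      rw [smul_zero, smul_zero, Submonoid.smul_def, Submonoid.smul_def, OneMemClass.coe_one,
        one_smul, smul_smul] at hu
      have hu0 : (u : R) ≠ 0 := by
        intro h0
        have h7 : (u : R) ∉ maximalIdeal R := u.2
        apply h7
        rw [h0]
        exact Ideal.zero_mem _
      have := htf _ (mul_ne_zero hu0 ht0) m hu
      rw [this, LocalizedModule.zero_mk]

/-- P2 (b) -/
theorem torsionFree_of_isMCM (t : R) (ht : t ∈ maximalIdeal R) (ht0 : t ≠ 0)
    (hprimes : ∀ p : Ideal R, p.IsPrime → p = ⊥ ∨ p = maximalIdeal R)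
    (hm : ∀ r ∈ maximalIdeal R, ∃ k : ℕ, t ∣ r ^ k) (hd : ∀ r : R, r ≠ 0 → ∃ N : ℕ, r ∣ t ^ N)
    (hM : IsMCM R M) : ∀ r : R, r ≠ 0 → ∀ m : M, r • m = 0 → m = 0 := by
  obtain ⟨rs, h1, h2, h3⟩ := hM.2 (maximalIdeal R)
  rw [dim_max R t ht ht0 hprimes] at h2
  have hlen : rs.length = 1 := by
    have h4 : ((rs.length : ℕ∞) : WithBot ℕ∞) = ((1 : ℕ∞) : WithBot ℕ∞) := h2
    have h5 : (rs.length : ℕ∞) = 1 := WithBot.coe_injective h4
    exact_mod_cast h5
  obtain ⟨x, rfl⟩ := List.length_eq_one_iff.mp hlen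
  rw [RingTheory.Sequence.isWeaklyRegular_cons_iff] at h3
  have hx := h1 x (List.mem_singleton.mpr rfl)
  have hreg := h3.1
  obtain ⟨a, s, rfl⟩ := IsLocalization.exists_mk'_eq (maximalIdeal R).primeCompl x
  have ha : a ∈ maximalIdeal R :=
    (IsLocalization.AtPrime.mk'_mem_maximal_iff _ (maximalIdeal R) a s).mp hx
  rw [← Localization.mk_eq_mk'] at hreg
  -- `a` is regular on `M`
  have hareg : ∀ m : M, a • m = 0 → m = 0 := by
    intro m hm0
    have h5 : Localization.mk a s • LocalizedModule.mk m (1 : (maximalIdeal R).primeCompl) = 0 := by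
      rw [LocalizedModule.mk_smul_mk, hm0, LocalizedModule.zero_mk]
    have h6 := hreg.right_eq_zero_of_smul h5
    rw [← LocalizedModule.zero_mk 1, LocalizedModule.mk_eq] at h6
    obtain ⟨u, hu⟩ := h6
    rw [smul_zero, smul_zero, one_smul, Submonoid.smul_def] at hu
    have hu1 : IsUnit (u : R) := by
      have h7 : (u : R) ∉ maximalIdeal R := u.2
      by_contra hc
      exact h7 ((mem_maximalIdeal _).mpr hc)
    exact (hu1.smul_eq_zero).mp hu
  have hapow : ∀ (k : ℕ) (m : M), a ^ k • m = 0 → m = 0 := by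
    intro k
    induction k with
    | zero => intro m h; simpa using h
    | succ k ih =>
      intro m h
      rw [pow_succ, mul_smul] at h
      exact hareg m (ih _ h)
  obtain ⟨k, b, hb⟩ := hm a ha
  have ht1 : ∀ m : M, t • m = 0 → m = 0 := by
    intro m h
    apply hapow k
    rw [hb, mul_comm, mul_smul, h, smul_zero]
  have htpow : ∀ (k : ℕ) (m : M), t ^ k • m = 0 → m = 0 := by
    intro k
    induction k with
    | zero => intro m h; simpa using h
    | succ k ih =>
      intro m h
      rw [pow_succ, mul_smul] at h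
      exact ht1 m (ih _ h)
  intro r hr m h
  obtain ⟨N, c, hc⟩ := hd r hr
  apply htpow N
  rw [hc, mul_comm, mul_smul, h, smul_zero]

end

end Pool.Agent.H993R3.DC
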